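import Pool.Agent.helper63.Dg4.Spec

/-!
# The new condition (row NCO of project dg4)
-/

namespace Pool.Agent.helper63.Dg4

open Encodable Pool.Agent.helper63.Diag

namespace NCO

/-- finite version of `Ok` -/
def OkR (ab : List ℕ) (fl : ℕ → ℕ) (ρ : List ℕ) (i y : ℕ) : Prop :=
  (¬ ab.getD (col i) 0 = 1 ∨ y = 0) ∧
  (¬ ab.getD (col i) 0 = 2 ∨ (y = 0 ∨
    ((Nat.pair (col i) (y - 1) < ρ.length ∧ Nat.pair (col i) (el i) < ρ.length) ∧
      ρ.getD (Nat.pair (col i) (y - 1)) 0 = fl (ρ.getD (Nat.pair (col i) (el i)) 0))))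

theorem primrec_col : Primrec col := Primrec.fst.comp Primrec.unpair

theorem primrec_el : Primrec el :=
  Primrec.fst.comp (Primrec.unpair.comp (Primrec.snd.comp Primrec.unpair))

theorem prim_okR {α : Type} [Primcodable α] (ab : List ℕ) {fl : ℕ → ℕ} (hfl : Primrec fl)
    {r : α → List ℕ} (hr : Primrec r) {i y : α → ℕ} (hi : Primrec i) (hy : Primrec y) :
    PrimrecPred (fun a => OkR ab fl (r a) (i a) (y a)) := by
  have hc : Primrec (fun a => col (i a)) := primrec_col.comp hi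
  have hab : Primrec (fun a => ab.getD (col (i a)) 0) :=
    (Primrec.list_getD 0).comp (Primrec.const ab) hc
  have h1 : Primrec (fun a => Nat.pair (col (i a)) (y a - 1)) :=
    Primrec₂.natPair.comp hc (Primrec.nat_sub.comp hy (Primrec.const 1))
  have h2 : Primrec (fun a => Nat.pair (col (i a)) (el (i a))) :=
    Primrec₂.natPair.comp hc (primrec_el.comp hi)
  have hlen : Primrec (fun a => (r a).length) := Primrec.list_length.comp hr
  refine PrimrecPred.and (PrimrecPred.or (PrimrecPred.not ?_) ?_)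
    (PrimrecPred.or (PrimrecPred.not ?_) (PrimrecPred.or ?_ (PrimrecPred.and
      (PrimrecPred.and ?_ ?_) ?_)))
  · exact Primrec.eq.comp hab (Primrec.const 1)
  · exact Primrec.eq.comp hy (Primrec.const 0)
  · exact Primrec.eq.comp hab (Primrec.const 2)
  · exact Primrec.eq.comp hy (Primrec.const 0)
  · exact Primrec.nat_lt.comp h1 hlen
  · exact Primrec.nat_lt.comp h2 hlen
  · exact Primrec.eq.comp ((Primrec.list_getD 0).comp hr h1)
      (hfl.comp ((Primrec.list_getD 0).comp hr h2))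

theorem okR_ok {ab : List ℕ} {fl v : ℕ → ℕ} {k i y : ℕ} (h : OkR ab fl (res v k) i y) :
    Ok ab fl v i y := by
  obtain ⟨h1, h2⟩ := h
  refine ⟨fun h => h1.resolve_left (fun hn => hn h), fun h => ?_⟩
  rcases h2.resolve_left (fun hn => hn h) with h3 | ⟨⟨h3, h4⟩, h5⟩
  · exact Or.inl h3
  · rw [res_length] at h3 h4
    rw [res_getD v h3, res_getD v h4] at h5
    exact Or.inr h5

theorem ok_okR {ab : List ℕ} {fl v : ℕ → ℕ} {k i y : ℕ} (h : Ok ab fl v i y)
    (h3 : Nat.pair (col i) (y - 1) < k) (h4 : Nat.pair (col i) (el i) < k) :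
    OkR ab fl (res v k) i y := by
  obtain ⟨h1, h2⟩ := h
  refine ⟨?_, ?_⟩
  · by_cases h : ab.getD (col i) 0 = 1
    · exact Or.inr (h1 h)
    · exact Or.inl h
  · by_cases h : ab.getD (col i) 0 = 2
    · rcases h2 h with h5 | h5
      · exact Or.inr (Or.inl h5)
      · refine Or.inr (Or.inr ⟨⟨by rwa [res_length], by rwa [res_length]⟩, ?_⟩)
        rw [res_getD v h3, res_getD v h4]
        exact h5
    · exact Or.inl h

/-- the part (2) of the bad strings -/
def KillR (p : Cond) (D : List ℕ → ℕ × ℕ → Prop) (ℓ a κ0 : ℕ) (π πl : ℕ → ℕ)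
    (ρ : List ℕ) : Prop :=
  ∃ q : List ℕ × ℕ, ((q.1.take p.σ.length = p.σ ∧
    ∀ i < q.1.length, ¬ p.σ.length ≤ i ∨ OkR p.ab p.fl (ρ.map π) i (q.1.getD i 0)) ∧
      D q.1 (ℓ, q.2)) ∧
    (Nat.pair κ0 q.2 < ρ.length ∧ πl (ρ.getD (Nat.pair κ0 q.2) 0) = a)

theorem ce_kill (p : Cond) {D : List ℕ → ℕ × ℕ → Prop} (hD : PrimrecRel D) (ℓ a κ0 : ℕ)
    {π πl : ℕ → ℕ} (hπ : Primrec π) (hπl : Primrec πl) :
    CE (KillR p D ℓ a κ0 π πl) := by
  refine S1.ex (A := fun (ρ : List ℕ) (q : List ℕ × ℕ) =>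
    ((q.1.take p.σ.length = p.σ ∧
    ∀ i < q.1.length, ¬ p.σ.length ≤ i ∨ OkR p.ab p.fl (ρ.map π) i (q.1.getD i 0)) ∧
      D q.1 (ℓ, q.2)) ∧
    (Nat.pair κ0 q.2 < ρ.length ∧ πl (ρ.getD (Nat.pair κ0 q.2) 0) = a)) (S1.prim ?_)
  have hρ : Primrec (fun b : List ℕ × (List ℕ × ℕ) => b.1) := Primrec.fst
  have hτ : Primrec (fun b : List ℕ × (List ℕ × ℕ) => b.2.1) := Primrec.fst.comp Primrec.snd
  have hz : Primrec (fun b : List ℕ × (List ℕ × ℕ) => b.2.2) := Primrec.snd.comp Primrec.snd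
  have hpz : Primrec (fun b : List ℕ × (List ℕ × ℕ) => Nat.pair κ0 b.2.2) :=
    Primrec₂.natPair.comp (Primrec.const κ0) hz
  refine PrimrecPred.and (PrimrecPred.and (PrimrecPred.and ?_ ?_) ?_) (PrimrecPred.and ?_ ?_)
  · exact Primrec.eq.comp (Primrec.list_take.comp (Primrec.const _) hτ) (Primrec.const p.σ)
  · refine PRalllt (R := fun (b : List ℕ × (List ℕ × ℕ)) (i : ℕ) =>
      ¬ p.σ.length ≤ i ∨ OkR p.ab p.fl (b.1.map π) i (b.2.1.getD i 0)) ?_
      (Primrec.list_length.comp hτ)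
    refine PrimrecPred.or (PrimrecPred.not ?_) ?_
    · exact Primrec.nat_le.comp (Primrec.const _) Primrec.snd
    · refine prim_okR (α := (List ℕ × (List ℕ × ℕ)) × ℕ) p.ab p.hfl
        (r := fun b => b.1.1.map π) (i := fun b => b.2) (y := fun b => b.1.2.1.getD b.2 0)
        ?_ Primrec.snd ?_
      · exact Primrec.list_map (Primrec.fst.comp Primrec.fst) (hπ.comp Primrec.snd)
      · exact (Primrec.list_getD 0).comp (hτ.comp Primrec.fst) Primrec.snd
  · exact hD.comp hτ (Primrec.pair (Primrec.const ℓ) hz)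
  · exact Primrec.nat_lt.comp hpz (Primrec.list_length.comp hρ)
  · exact Primrec.eq.comp (hπl.comp ((Primrec.list_getD 0).comp hρ hpz)) (Primrec.const a)

theorem map_res (π u : ℕ → ℕ) (k : ℕ) : (res u k).map π = res (fun x => π (u x)) k := by
  simp [res, List.map_map, Function.comp_def]

theorem bound_fn (g : ℕ → ℕ) (n : ℕ) : ∃ B, ∀ i < n, g i < B := by
  refine ⟨(Finset.range n).sup g + 1, fun i hi => Nat.lt_succ_of_le ?_⟩
  exact Finset.le_sup (f := g) (Finset.mem_range.2 hi)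

theorem not_kill_iff {p : Cond} {D : List ℕ → ℕ × ℕ → Prop} {ℓ a κ0 : ℕ} {π πl v : ℕ → ℕ} :
    (∀ k, ¬ KillR p D ℓ a κ0 π πl (res v k)) ↔
      ∀ τ z, Cpt p (fun x => π (v x)) τ → D τ (ℓ, z) → πl (v (Nat.pair κ0 z)) ≠ a := by
  constructor
  · intro h τ z hc hD heq
    obtain ⟨B1, hB1⟩ := bound_fn (fun i => Nat.pair (col i) (τ.getD i 0 - 1)) τ.length
    obtain ⟨B2, hB2⟩ := bound_fn (fun i => Nat.pair (col i) (el i)) τ.length
    have h1 : ∀ i < τ.length, Nat.pair (col i) (τ.getD i 0 - 1) <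
        max (max B1 B2) (Nat.pair κ0 z + 1) := fun i hi =>
      lt_of_lt_of_le (hB1 i hi) (le_max_of_le_left (le_max_left _ _))
    have h2 : ∀ i < τ.length, Nat.pair (col i) (el i) <
        max (max B1 B2) (Nat.pair κ0 z + 1) := fun i hi =>
      lt_of_lt_of_le (hB2 i hi) (le_max_of_le_left (le_max_right _ _))
    have h3 : Nat.pair κ0 z < max (max B1 B2) (Nat.pair κ0 z + 1) :=
      lt_of_lt_of_le (Nat.lt_succ_self _) (le_max_right _ _)
    refine h (max (max B1 B2) (Nat.pair κ0 z + 1)) ⟨(τ, z), ⟨⟨hc.1, fun i hi => ?_⟩, hD⟩, ?_, ?_⟩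
    · by_cases h4 : p.σ.length ≤ i
      · right
        rw [map_res]
        exact ok_okR (hc.2 i h4 hi) (h1 i hi) (h2 i hi)
      · exact Or.inl h4
    · rw [res_length]; exact h3
    · show πl ((res v _).getD (Nat.pair κ0 z) 0) = a
      rw [res_getD v h3]
      exact heq
  · rintro h k ⟨⟨τ, z⟩, ⟨⟨h1, h2⟩, hD⟩, h3, h4⟩
    simp only at h1 h2 hD h3 h4
    rw [res_length] at h3
    rw [res_getD v h3] at h4
    refine h τ z ⟨h1, fun i hi hi2 => ?_⟩ hD h4
    have h5 := (h2 i hi2).resolve_left (fun hn => hn hi)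
    rw [map_res] at h5
    exact okR_ok h5

theorem getD_append_one (ab : List ℕ) (κ : ℕ) :
    (ab ++ [1]).getD κ 0 = if κ = ab.length then 1 else ab.getD κ 0 := by
  rw [List.getD_eq_getElem?_getD, List.getD_eq_getElem?_getD]
  split_ifs with h
  · subst h; simp
  · rcases lt_or_gt_of_ne h with h1 | h1
    · rw [List.getElem?_append_left h1]
    · rw [List.getElem?_eq_none (by simp; omega), List.getElem?_eq_none (by omega)]

theorem getD_self (ab : List ℕ) : ab.getD ab.length 0 = 0 := by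
  rw [List.getD_eq_getElem?_getD, List.getElem?_eq_none le_rfl]
  rfl

theorem lt_of_getD {ab : List ℕ} {κ : ℕ} (h : ab.getD κ 0 ≠ 0) : κ < ab.length := by
  by_contra hn
  apply h
  rw [List.getD_eq_getElem?_getD, List.getElem?_eq_none (by omega)]
  rfl

end NCO

open NCO in
theorem NCO : NCO_stmt := by
  classical
  intro p D hD hM ℓ f c hc hKS hfl
  obtain ⟨κ₀, hκ₀⟩ : ∃ κ₀, κ₀ = p.ab.length := ⟨_, rfl⟩
  let ct : ℕ → ℕ := fun i => if i.unpair.1 = κ₀ then c i.unpair.2 else 0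
  let W : ℕ → List ℕ := fun i => (List.range (ℓ + 1)).map (fun a => f a i) ++ [ct i]
  have hctle : ∀ i, ct i ≤ ℓ := by
    intro i
    simp only [ct]
    split_ifs
    · exact hc _
    · exact Nat.zero_le _
  have hWlen : ∀ i, (W i).length = ℓ + 2 := fun i => by simp [W]
  have hWget : ∀ i, ∀ a ≤ ℓ, (W i).getD a 0 = f a i := by
    intro i a ha
    have : a < ((List.range (ℓ + 1)).map (fun a => f a i)).length := by simp; omega
    rw [List.getD_eq_getElem?_getD]
    simp only [W]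
    rw [List.getElem?_append_left this]
    simp [Nat.lt_succ_of_le ha]
  have hWlast : ∀ i, (W i).getD (ℓ + 1) 0 = ct i := by
    intro i
    rw [List.getD_eq_getElem?_getD]
    simp only [W]
    rw [List.getElem?_append_right (by simp)]
    simp
  have hWlt : ∀ i, ∀ b ∈ W i, b < max p.n (ℓ + 1) := by
    intro i b hb
    simp only [W, List.mem_append, List.mem_map, List.mem_range, List.mem_singleton] at hb
    rcases hb with ⟨a, ha, rfl⟩ | rfl
    · exact lt_of_lt_of_le ((hKS a (by omega)).1.1 i) (le_max_left _ _)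
    · exact lt_of_lt_of_le (Nat.lt_succ_of_le (hctle i)) (le_max_right _ _)
  have hWmem : ∀ i, W i ∈ strs (max p.n (ℓ + 1)) (ℓ + 2) := by
    intro i
    rw [mem_strs]
    exact ⟨hWlen i, hWlt i⟩
  -- two tuples with the same entries
  have hWext : ∀ i j, (∀ a ≤ ℓ, f a i = f a j) → ct i = ct j → W i = W j := by
    intro i j h1 h2
    simp only [W]
    rw [h2]
    congr 1
    apply List.map_congr_left
    intro a ha
    exact h1 a (by have := List.mem_range.1 ha; omega)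
  let L : List (List ℕ) :=
    ((strs (max p.n (ℓ + 1)) (ℓ + 2)).filter (fun l => decide (∃ x, W x = l))).dedup
  have hL : ∀ l, l ∈ L ↔ ∃ x, W x = l := by
    intro l
    simp only [L, List.mem_dedup, List.mem_filter, decide_eq_true_eq]
    constructor
    · rintro ⟨-, h⟩; exact h
    · rintro ⟨x, rfl⟩; exact ⟨hWmem x, x, rfl⟩
  have hLnd : L.Nodup := List.nodup_dedup _
  let π : ℕ → ℕ → ℕ := fun a t => (L.getD t []).getD a 0
  have hLget : ∀ t < L.length, ∃ x, W x = L.getD t [] := by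
    intro t ht
    apply (hL _).1
    rw [List.getD_eq_getElem?_getD, List.getElem?_eq_getElem ht]
    simp
  have hidx : ∀ l ∈ L, L.idxOf l < L.length ∧ L.getD (L.idxOf l) [] = l := by
    intro l hl
    have h1 := List.idxOf_lt_length_of_mem hl
    refine ⟨h1, ?_⟩
    rw [List.getD_eq_getElem?_getD, List.getElem?_eq_getElem h1]
    simp
  have hinj : ∀ s t, s < L.length → t < L.length → L.getD s [] = L.getD t [] → s = t := by
    intro s t hs ht h
    rw [List.getD_eq_getElem?_getD, List.getD_eq_getElem?_getD,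
      List.getElem?_eq_getElem hs, List.getElem?_eq_getElem ht] at h
    exact (hLnd.getElem_inj_iff).1 (by simpa using h)
  let ix : ℕ → ℕ := fun i => L.idxOf (W i)
  have hix : ∀ i, ix i < L.length ∧ L.getD (ix i) [] = W i := fun i => hidx _ ((hL _).2 ⟨i, rfl⟩)
  have hπix : ∀ i, ∀ a ≤ ℓ, π a (ix i) = f a i := by
    intro i a ha
    simp only [π]
    rw [(hix i).2, hWget i a ha]
  have hπixl : ∀ i, π (ℓ + 1) (ix i) = ct i := by
    intro i
    simp only [π]
    rw [(hix i).2, hWlast i]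
  have hixof : ∀ t < L.length, ∃ i, ix i = t := by
    intro t ht
    obtain ⟨x, hx⟩ := hLget t ht
    exact ⟨x, hinj _ _ (hix x).1 ht (by rw [(hix x).2, hx])⟩
  have hπprim : ∀ a, Primrec (π a) := by
    intro a
    have h1 : Primrec (fun t : ℕ => L.getD t []) :=
      (Primrec.list_getD []).comp (Primrec.const L) Primrec.id
    exact (Primrec.list_getD 0).comp h1 (Primrec.const a)
  -- realised in a column
  let Real : ℕ → ℕ → Prop := fun κ t => ∃ x, ix (Nat.pair κ x) = t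
  have hact : ∀ κ, p.ab.getD κ 0 = 2 → κ < κ₀ := by
    intro κ h
    rw [hκ₀]
    exact lt_of_getD (by rw [h]; norm_num)
  have hct0 : ∀ κ x, κ ≠ κ₀ → ct (Nat.pair κ x) = 0 := by
    intro κ x h
    simp [ct, h]
  have hctκ : ∀ z, ct (Nat.pair κ₀ z) = c z := by
    intro z
    simp [ct]
  -- the flip
  have hflex : ∀ t, ∃ t', ∀ κ, p.ab.getD κ 0 = 2 → Real κ t →
      Real κ t' ∧ ∀ a ≤ ℓ, π a t' = p.fl (π a t) := by
    intro t
    by_cases h : ∃ κ, p.ab.getD κ 0 = 2 ∧ Real κ t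
    · obtain ⟨κ, hκ, x, hx⟩ := h
      obtain ⟨y, hy⟩ := hfl κ hκ x
      refine ⟨ix (Nat.pair κ y), fun κ' hκ' hr => ?_⟩
      obtain ⟨x', hx'⟩ := hr
      obtain ⟨y', hy'⟩ := hfl κ' hκ' x'
      have h1 : ∀ a ≤ ℓ, f a (Nat.pair κ x) = f a (Nat.pair κ' x') := by
        intro a ha
        rw [← hπix _ a ha, ← hπix _ a ha, hx, hx']
      have h2 : W (Nat.pair κ' y') = W (Nat.pair κ y) := by
        apply hWext
        · intro a ha
          rw [hy' a ha, hy a ha, h1 a ha]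
        · rw [hct0 _ _ (hact _ hκ').ne, hct0 _ _ (hact _ hκ).ne]
      refine ⟨⟨y', ?_⟩, fun a ha => ?_⟩
      · simp only [ix]
        rw [h2]
      · rw [hπix _ a ha, hy a ha, ← hx, hπix _ a ha]
    · exact ⟨0, fun κ hκ hr => absurd ⟨κ, hκ, hr⟩ h⟩
  choose f0 hf0 using hflex
  let fl' : ℕ → ℕ := fun t => (res f0 L.length).getD t 0
  have hfl' : ∀ t < L.length, fl' t = f0 t := fun t ht => res_getD f0 ht
  have hYex : ∀ κ t, ∃ x, Real κ t → ix (Nat.pair κ x) = t := by
    intro κ t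
    by_cases h : Real κ t
    · obtain ⟨x, hx⟩ := h
      exact ⟨x, fun _ => hx⟩
    · exact ⟨0, fun h' => absurd h' h⟩
  choose Y' hY' using hYex
  let RL : List (ℕ × ℕ) := ((List.range p.ab.length).product (List.range L.length)).filter
    (fun b => decide (p.ab.getD b.1 0 = 2 ∧ Real b.1 b.2))
  have hRL : ∀ κ t, (κ, t) ∈ RL ↔ p.ab.getD κ 0 = 2 ∧ Real κ t := by
    intro κ t
    simp only [RL, List.mem_filter, decide_eq_true_eq, List.pair_mem_product, List.mem_range]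
    constructor
    · rintro ⟨-, h⟩; exact h
    · rintro ⟨h1, h2⟩
      refine ⟨⟨?_, ?_⟩, h1, h2⟩
      · exact lt_of_getD (by rw [h1]; norm_num)
      · obtain ⟨x, rfl⟩ := h2
        exact (hix _).1
  let QL : List (ℕ × ℕ) := RL.map (fun b => (Nat.pair b.1 (Y' b.1 b.2), b.2))
  obtain ⟨z0', hz0'⟩ : ∃ z0', z0' = ix (Nat.pair (κ₀ + 1) 0) := ⟨_, rfl⟩
  let B1 : List ℕ → Prop := fun ρ => ∃ a < ℓ + 1, p.Bad (ρ.map (π a))
  let B2 : List ℕ → Prop := fun ρ => ∃ a < ℓ + 1, KillR p D ℓ a κ₀ (π a) (π (ℓ + 1)) ρ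
  let B3 : List ℕ → Prop := fun ρ => ∃ i < ρ.length, p.ab.getD i.unpair.1 0 = 2 ∧
    ¬ ∃ b ∈ RL, b = (i.unpair.1, ρ.getD i 0)
  let B4 : List ℕ → Prop := fun ρ => ∃ b ∈ QL, b.1 < ρ.length ∧ ¬ ρ.getD b.1 0 = b.2
  let B5 : List ℕ → Prop := fun ρ => ∃ i < ρ.length,
    (p.ab.getD i.unpair.1 0 = 0 ∧ ¬ i.unpair.1 = κ₀) ∧ ¬ ρ.getD i 0 = z0'
  let Bad' : List ℕ → Prop := fun ρ => ((B1 ρ ∨ B2 ρ) ∨ B3 ρ) ∨ (B4 ρ ∨ B5 ρ)
  have hre : CE Bad' := by
    refine S1.or (S1.or (S1.or ?_ ?_) (S1.prim ?_)) (S1.or (S1.prim ?_) (S1.prim ?_))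
    · exact S1.orlt (A := fun (a : ℕ) (ρ : List ℕ) => p.Bad (ρ.map (π a))) (ℓ + 1)
        (fun a _ => p.re.comp (Primrec.list_map Primrec.id ((hπprim a).comp Primrec.snd)))
    · exact S1.orlt (A := fun (a : ℕ) (ρ : List ℕ) => KillR p D ℓ a κ₀ (π a) (π (ℓ + 1)) ρ)
        (ℓ + 1) (fun a _ => ce_kill p hD ℓ a κ₀ (hπprim a) (hπprim (ℓ + 1)))
    · refine PRexlt (R := fun (ρ : List ℕ) (i : ℕ) => p.ab.getD i.unpair.1 0 = 2 ∧
        ¬ ∃ b ∈ RL, b = (i.unpair.1, ρ.getD i 0)) ?_ Primrec.list_length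
      have hu : Primrec (fun q : List ℕ × ℕ => q.2.unpair.1) :=
        Primrec.fst.comp (Primrec.unpair.comp Primrec.snd)
      refine PrimrecPred.and ?_ (PrimrecPred.not ?_)
      · exact Primrec.eq.comp ((Primrec.list_getD 0).comp (Primrec.const _) hu)
          (Primrec.const 2)
      · refine PRex (R := fun (q : List ℕ × ℕ) (b : ℕ × ℕ) =>
          b = (q.2.unpair.1, q.1.getD q.2 0)) ?_ (Primrec.const RL)
        exact Primrec.eq.comp Primrec.snd (Primrec.pair (hu.comp Primrec.fst)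
          ((Primrec.list_getD 0).comp (Primrec.fst.comp Primrec.fst)
            (Primrec.snd.comp Primrec.fst)))
    · refine PRex (R := fun (ρ : List ℕ) (b : ℕ × ℕ) => b.1 < ρ.length ∧ ¬ ρ.getD b.1 0 = b.2)
        ?_ (Primrec.const QL)
      refine PrimrecPred.and ?_ (PrimrecPred.not ?_)
      · exact Primrec.nat_lt.comp (Primrec.fst.comp Primrec.snd)
          (Primrec.list_length.comp Primrec.fst)
      · exact Primrec.eq.comp ((Primrec.list_getD 0).comp Primrec.fst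
          (Primrec.fst.comp Primrec.snd)) (Primrec.snd.comp Primrec.snd)
    · refine PRexlt (R := fun (ρ : List ℕ) (i : ℕ) =>
        (p.ab.getD i.unpair.1 0 = 0 ∧ ¬ i.unpair.1 = κ₀) ∧ ¬ ρ.getD i 0 = z0') ?_
        Primrec.list_length
      have hu : Primrec (fun q : List ℕ × ℕ => q.2.unpair.1) :=
        Primrec.fst.comp (Primrec.unpair.comp Primrec.snd)
      refine PrimrecPred.and (PrimrecPred.and ?_ (PrimrecPred.not ?_)) (PrimrecPred.not ?_)
      · exact Primrec.eq.comp ((Primrec.list_getD 0).comp (Primrec.const _) hu)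
          (Primrec.const 0)
      · exact Primrec.eq.comp hu (Primrec.const κ₀)
      · exact Primrec.eq.comp ((Primrec.list_getD 0).comp Primrec.fst Primrec.snd)
          (Primrec.const z0')
  -- properties of the members of the new class
  have hπlt : ∀ t < L.length, ∀ a ≤ ℓ, π a t < p.n := by
    intro t ht a ha
    obtain ⟨i, rfl⟩ := hixof t ht
    rw [hπix i a ha]
    exact (hKS a ha).1.1 i
  have hproj : ∀ u ∈ cls L.length Bad', ∀ a ≤ ℓ, (fun x => π a (u x)) ∈ cls p.n p.Bad := by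
    rintro u ⟨h1, h2⟩ a ha
    refine ⟨fun x => hπlt _ (h1 x) a ha, fun k hk => ?_⟩
    exact h2 k (Or.inl (Or.inl (Or.inl ⟨a, by omega, by rwa [map_res]⟩)))
  have hkill : ∀ u ∈ cls L.length Bad', ∀ a ≤ ℓ, ∀ τ z, Cpt p (fun x => π a (u x)) τ →
      D τ (ℓ, z) → π (ℓ + 1) (u (Nat.pair κ₀ z)) ≠ a := by
    rintro u ⟨h1, h2⟩ a ha
    exact not_kill_iff.1 (fun k hk => h2 k (Or.inl (Or.inl (Or.inr ⟨a, by omega, hk⟩))))
  have hreal : ∀ u ∈ cls L.length Bad', ∀ κ, p.ab.getD κ 0 = 2 → ∀ x,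
      Real κ (u (Nat.pair κ x)) := by
    rintro u ⟨h1, h2⟩ κ hκ x
    by_contra hn
    refine h2 (Nat.pair κ x + 1) (Or.inl (Or.inr ⟨Nat.pair κ x, ?_, ?_, ?_⟩))
    · rw [res_length]; exact Nat.lt_succ_self _
    · rw [Nat.unpair_pair]; exact hκ
    · rintro ⟨b, hb, hb2⟩
      rw [Nat.unpair_pair, res_getD u (Nat.lt_succ_self _)] at hb2
      rw [hb2] at hb
      exact hn ((hRL _ _).1 hb).2
  have hYc : ∀ u ∈ cls L.length Bad', ∀ κ, p.ab.getD κ 0 = 2 → ∀ t, Real κ t →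
      u (Nat.pair κ (Y' κ t)) = t := by
    rintro u ⟨h1, h2⟩ κ hκ t ht
    by_contra hn
    refine h2 (Nat.pair κ (Y' κ t) + 1) (Or.inr (Or.inl ⟨(Nat.pair κ (Y' κ t), t), ?_, ?_, ?_⟩))
    · exact List.mem_map.2 ⟨(κ, t), (hRL κ t).2 ⟨hκ, ht⟩, rfl⟩
    · rw [res_length]; exact Nat.lt_succ_self _
    · simp only
      rw [res_getD u (Nat.lt_succ_self _)]
      exact hn
  have hz : ∀ u ∈ cls L.length Bad', ∀ κ, p.ab.getD κ 0 = 0 → κ ≠ κ₀ → ∀ x,
      u (Nat.pair κ x) = z0' := by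
    rintro u ⟨h1, h2⟩ κ hκ hκ2 x
    by_contra hn
    refine h2 (Nat.pair κ x + 1) (Or.inr (Or.inr ⟨Nat.pair κ x, ?_, ⟨?_, ?_⟩, ?_⟩))
    · rw [res_length]; exact Nat.lt_succ_self _
    · rw [Nat.unpair_pair]; exact hκ
    · rw [Nat.unpair_pair]; exact hκ2
    · rw [res_getD u (Nat.lt_succ_self _)]
      exact hn
  have hrl0 : ∀ κ, p.ab.getD κ 0 = 2 → ∀ t, Real κ t → π (ℓ + 1) t = 0 := by
    rintro κ hκ t ⟨x, rfl⟩
    rw [hπixl, hct0 _ _ (hact κ hκ).ne]
  have hext : ∀ s t, s < L.length → t < L.length → (∀ a ≤ ℓ, π a s = π a t) →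
      π (ℓ + 1) s = π (ℓ + 1) t → s = t := by
    intro s t hs ht h1 h2
    obtain ⟨i, rfl⟩ := hixof s hs
    obtain ⟨j, rfl⟩ := hixof t ht
    have h3 : W i = W j := by
      apply hWext
      · intro a ha
        have := h1 a ha
        rwa [hπix i a ha, hπix j a ha] at this
      · rwa [hπixl, hπixl] at h2
    simp only [ix]
    rw [h3]
  have hflπ : ∀ u ∈ cls L.length Bad', ∀ κ, p.ab.getD κ 0 = 2 → ∀ x,
      Real κ (fl' (u (Nat.pair κ x))) ∧
        ∀ a ≤ ℓ, π a (fl' (u (Nat.pair κ x))) = p.fl (π a (u (Nat.pair κ x))) := by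
    intro u hu κ hκ x
    rw [hfl' _ (hu.1 _)]
    exact hf0 _ κ hκ (hreal u hu κ hκ x)
  have habκ : ∀ κ, (p.ab ++ [1]).getD κ 0 = if κ = κ₀ then 1 else p.ab.getD κ 0 := by
    intro κ
    rw [getD_append_one, hκ₀]
  have hab2 : ∀ κ, (p.ab ++ [1]).getD κ 0 = 2 → p.ab.getD κ 0 = 2 := by
    intro κ h
    rw [habκ] at h
    split_ifs at h with h1
    · omega
    · exact h
  have hab0 : ∀ κ, (p.ab ++ [1]).getD κ 0 = 0 → κ ≠ κ₀ ∧ p.ab.getD κ 0 = 0 := by
    intro κ h
    rw [habκ] at h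
    split_ifs at h with h1
    exact ⟨h1, h⟩
  have habn : ∀ κ, p.ab.getD κ 0 ≠ 0 → (p.ab ++ [1]).getD κ 0 = p.ab.getD κ 0 := by
    intro κ h
    rw [habκ, if_neg]
    rintro rfl
    apply h
    rw [hκ₀]
    exact getD_self _
  let q : Cond :=
    { ab := p.ab ++ [1]
      ce := p.ce
      σ := p.σ
      n := L.length
      fl := fl'
      Y := Y'
      z0 := z0'
      Bad := Bad'
      re := hre
      hfl := (Primrec.list_getD 0).comp (Primrec.const _) Primrec.id
      inv := fun u hu κ hκ x z hxz => by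
        have hκ' := hab2 κ hκ
        refine hext _ _ (hu.1 _) (hu.1 _) (fun a ha => ?_) ?_
        · exact p.inv _ (hproj u hu a ha) κ hκ' x z hxz
        · rw [hrl0 κ hκ' _ (hreal u hu κ hκ' x), hrl0 κ hκ' _ (hreal u hu κ hκ' z)]
      fl_ne := fun u hu κ hκ x heq => by
        have hκ' := hab2 κ hκ
        have h1 := (hflπ u hu κ hκ' x).2 0 (Nat.zero_le _)
        rw [heq] at h1
        exact p.fl_ne _ (hproj u hu 0 (Nat.zero_le _)) κ hκ' x h1.symm
      yc := fun u hu κ hκ x => by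
        have hκ' := hab2 κ hκ
        exact hYc u hu κ hκ' _ (hflπ u hu κ hκ' x).1
      zz := fun u hu κ hκ x => by
        obtain ⟨h1, h2⟩ := hab0 κ hκ
        exact hz u hu κ h2 h1 x
      ne := by
        refine ⟨ix, fun x => (hix x).1, fun k hk => ?_⟩
        rcases hk with ((⟨a, ha, hk⟩ | ⟨a, ha, hk⟩) | ⟨i, hi, h1, h2⟩) | (⟨b, hb, h1, h2⟩ |
          ⟨i, hi, ⟨h1, h2⟩, h3⟩)
        · rw [map_res] at hk
          have : (fun x => π a (ix x)) = f a := by
            funext x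
            exact hπix x a (by omega)
          rw [this] at hk
          exact (hKS a (by omega)).1.2 k hk
        · refine absurd hk (not_kill_iff.2 ?_ k)
          intro τ z hcp hDτ
          have : (fun x => π a (ix x)) = f a := by
            funext x
            exact hπix x a (by omega)
          rw [this] at hcp
          rw [hπixl, hctκ]
          exact (hKS a (by omega)).2 τ hcp z hDτ
        · apply h2
          rw [res_length] at hi
          refine ⟨_, (hRL i.unpair.1 (ix i)).2 ⟨h1, i.unpair.2, ?_⟩, ?_⟩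
          · rw [Nat.pair_unpair]
          · rw [res_getD _ hi]
        · obtain ⟨⟨κ, t⟩, hb', rfl⟩ := List.mem_map.1 hb
          simp only at h1 h2
          rw [res_length] at h1
          rw [res_getD _ h1] at h2
          exact h2 (hY' κ t ((hRL κ t).1 hb').2)
        · apply h3
          rw [res_length] at hi
          rw [res_getD _ hi, hz0']
          have h4 : W i = W (Nat.pair (κ₀ + 1) 0) := by
            have h5 : i = Nat.pair i.unpair.1 i.unpair.2 := (Nat.pair_unpair i).symm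
            apply hWext
            · intro a ha
              have h6 := p.zz (f a) (hKS a ha).1 i.unpair.1 h1 i.unpair.2
              have h7 : p.ab.getD (κ₀ + 1) 0 = 0 := by
                by_contra hn
                have := lt_of_getD hn
                omega
              have h8 := p.zz (f a) (hKS a ha).1 (κ₀ + 1) h7 0
              rw [Nat.pair_unpair] at h6
              rw [h6, h8]
            · rw [h5, hct0 _ _ h2, hct0 _ _ (by omega)]
          simp only [ix]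
          rw [h4] }
  have hOk : ∀ u ∈ cls L.length Bad', ∀ i y, Ok (p.ab ++ [1]) fl' u i y → ∀ a ≤ ℓ,
      Ok p.ab p.fl (fun x => π a (u x)) i y := by
    rintro u hu i y ⟨h1, h2⟩ a ha
    refine ⟨fun h => h1 ?_, fun h => ?_⟩
    · rw [habn _ (by rw [h]; norm_num), h]
    · rcases h2 (by rw [habn _ (by rw [h]; norm_num), h]) with h3 | h3
      · exact Or.inl h3
      · right
        show π a (u _) = p.fl (π a (u _))
        rw [h3]
        exact (hflπ u hu _ h _).2 a ha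
  refine ⟨q, ⟨fun κ hκ => ⟨habn κ hκ, rfl⟩, ?_, ?_⟩, fun κ hκ => ⟨hab2 κ hκ, rfl⟩, ?_⟩
  · show p.σ.take p.σ.length = p.σ
    simp
  · rintro g ⟨h1, u, hu, h2⟩
    exact ⟨h1, _, hproj u hu 0 (Nat.zero_le _), fun i hi => hOk u hu i _ (h2 i hi) 0 (Nat.zero_le _)⟩
  · rintro g ⟨h1, u, hu, h2⟩ z k hDk
    have h3 : π (ℓ + 1) (u (Nat.pair κ₀ z)) ≤ ℓ := by
      obtain ⟨i, hi⟩ := hixof _ (hu.1 (Nat.pair κ₀ z))
      rw [← hi, hπixl]
      exact hctle i
    refine hkill u hu _ h3 (res g (max k p.σ.length)) z ⟨?_, fun i hi1 hi2 => ?_⟩ ?_ rfl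
    · rw [res_take g (le_max_right _ _)]
      exact h1
    · rw [res_length] at hi2
      rw [res_getD g hi2]
      exact hOk u hu i _ (h2 i hi1) _ h3
    · exact hM g (ℓ, z) _ _ (le_max_left _ _) hDk

end Pool.Agent.helper63.Dg4
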